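import Pool.Agent.H87.D3.Targets

/-! Row RAD of the board d3h (MP_2697e3_an): the radial energy at two points. -/

namespace Pool.Agent.H8.D3

open MeasureTheory Metric Set Filter Topology
open Pool.Agent.H87.SN Pool.Agent.H87.SH Pool.Agent.H87.AX Pool.Agent.H87.D3
open scoped ContDiff RealInnerProductSpace ENNReal

theorem rad_one (hMNT : Pool.Agent.H87.D3.T_MNT) {m : ℕ} {G : V → V →L[ℝ] E m}
    (hG : MemLp G 2 (volume.restrict (ball (0 : V) 2))) (hS : Stat1 G) {c : V} {τ om : ℝ}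
    (hτ : 0 < τ) (hτ1 : τ < 1) (hc : ball c 1 ⊆ ball 0 2) (hd : th G c 1 - th G c τ ≤ om) :
    IntegrableOn (fun y => ‖G y (y - c)‖ ^ 2) (ball c 1 \ ball c τ) ∧
    ∫ y in ball c 1 \ ball c τ, ‖G y (y - c)‖ ^ 2 ≤ om / 2 := by
  obtain ⟨hi, hle⟩ := hMNT m G hG hS c τ 1 hτ hτ1 hc
  have hmS : MeasurableSet (ball c 1 \ ball c τ) := measurableSet_ball.diff measurableSet_ball
  have hsub : ball c 1 \ ball c τ ⊆ ball (0 : V) 2 := sdiff_subset.trans hc
  have hmeas : AEStronglyMeasurable (fun y => ‖G y (y - c)‖ ^ 2)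
      (volume.restrict (ball c 1 \ ball c τ)) := by
    have h1 : AEStronglyMeasurable G (volume.restrict (ball c 1 \ ball c τ)) :=
      hG.aestronglyMeasurable.mono_set hsub
    have h2 : AEStronglyMeasurable (fun y : V => y - c)
        (volume.restrict (ball c 1 \ ball c τ)) :=
      (continuous_id.sub continuous_const).aestronglyMeasurable
    have h3 : AEStronglyMeasurable (fun y => G y (y - c))
        (volume.restrict (ball c 1 \ ball c τ)) :=
      isBoundedBilinearMap_apply.continuous.comp_aestronglyMeasurable (h1.prodMk h2)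
    exact (continuous_norm.pow 2).comp_aestronglyMeasurable h3
  have hpt : ∀ y ∈ ball c 1 \ ball c τ,
      ‖G y (y - c)‖ ^ 2 ≤ (‖y - c‖ ^ 3)⁻¹ * ‖G y (y - c)‖ ^ 2 := by
    intro y hy
    have h1 : ‖y - c‖ < 1 := by
      have := hy.1
      rwa [mem_ball, dist_eq_norm] at this
    have h2 : τ ≤ ‖y - c‖ := by
      have := hy.2
      rwa [mem_ball, dist_eq_norm, not_lt] at this
    have h3 : 0 < ‖y - c‖ ^ 3 := pow_pos (lt_of_lt_of_le hτ h2) 3
    have h4 : ‖y - c‖ ^ 3 ≤ 1 := pow_le_one₀ (norm_nonneg _) h1.le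
    have h5 : 1 ≤ (‖y - c‖ ^ 3)⁻¹ := (one_le_inv₀ h3).2 h4
    nlinarith [sq_nonneg ‖G y (y - c)‖]
  have hint : IntegrableOn (fun y => ‖G y (y - c)‖ ^ 2) (ball c 1 \ ball c τ) := by
    refine Integrable.mono' hi hmeas ?_
    refine (ae_restrict_mem hmS).mono fun y hy => ?_
    rw [Real.norm_of_nonneg (by positivity)]
    exact hpt y hy
  refine ⟨hint, ?_⟩
  have h1 : ∫ y in ball c 1 \ ball c τ, ‖G y (y - c)‖ ^ 2 ≤
      ∫ y in ball c 1 \ ball c τ, (‖y - c‖ ^ 3)⁻¹ * ‖G y (y - c)‖ ^ 2 :=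
    setIntegral_mono_on hint hi hmS hpt
  linarith

theorem rad_nzs {m : ℕ} (L : V →L[ℝ] E m) : nzs L = ‖L (bv 2)‖ ^ 2 := by
  rw [nzs, Fin.sum_univ_one]
  rfl

theorem rad_nzs_le {m : ℕ} (L : V →L[ℝ] E m) : nzs L ≤ nsq L := by
  rw [rad_nzs]
  rw [nsq]
  exact Finset.single_le_sum (f := fun i : Fin (1 + 2) => ‖L (bv i)‖ ^ 2)
    (fun i _ => by positivity) (Finset.mem_univ (2 : Fin (1 + 2)))

theorem rad_Pm (x : V) : Pm 1 x = x - x 2 • bv 2 := by
  ext i
  fin_cases i <;> simp [Pm, bv]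

theorem pf_RAD (hMUF : Pool.Agent.H87.D3.T_MUF) (hMNT : Pool.Agent.H87.D3.T_MNT) :
    Pool.Agent.H87.D3.T_RAD := by
  intro m Λ G hGD σ τ om r₁ D e x₀ hΛ hτ hτ1 hr₁ hσ hσ1 hF
  have hD0 : 0 < D := lt_of_lt_of_le (mul_pos hr₁ hσ) hF.D1
  have hD1 : D ≤ 1 / 32 := hF.D2.trans (by linarith)
  set p : V := D • bv 2 with hp
  have hpn : ‖p‖ = D := by
    rw [hp, norm_smul, Real.norm_of_nonneg hD0.le]
    have h1 : ‖(bv 2 : V)‖ = 1 := by simp [bv]
    rw [h1, mul_one]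
  have hb0 : ball (0 : V) 1 ⊆ ball 0 2 := ball_subset_ball (by norm_num)
  have hbp : ball p 1 ⊆ ball 0 2 := by
    refine ball_subset_ball' ?_
    rw [dist_zero_right, hpn]
    linarith
  obtain ⟨i0, l0⟩ := rad_one hMNT hGD.memG hGD.stat hτ (by linarith) hb0 hF.p0
  obtain ⟨ip, lp⟩ := rad_one hMNT hGD.memG hGD.stat hτ (by linarith) hbp hF.p1
  have hom : 0 ≤ om := by
    have h1 : 0 ≤ ∫ y in ball (0 : V) 1 \ ball 0 τ, ‖G y (y - 0)‖ ^ 2 :=
      integral_nonneg fun y => by positivity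
    linarith
  set A : Set V := {x : V | x ∈ ball 0 (7 / 8) ∧ τ ≤ ‖x‖ ∧ τ ≤ ‖x - p‖} with hA
  have hmA : MeasurableSet A := by
    have h1 : A = ball 0 (7 / 8) ∩ ({x : V | τ ≤ ‖x‖} ∩ {x : V | τ ≤ ‖x - p‖}) := rfl
    rw [h1]
    exact measurableSet_ball.inter ((isClosed_le continuous_const continuous_norm).measurableSet.inter
      (isClosed_le continuous_const (continuous_id.sub continuous_const).norm).measurableSet)
  have hA0 : A ⊆ ball 0 1 \ ball 0 τ := by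
    rintro x ⟨h1, h2, h3⟩
    refine ⟨ball_subset_ball (by norm_num) h1, ?_⟩
    rw [mem_ball_zero_iff, not_lt]
    exact h2
  have hAp : A ⊆ ball p 1 \ ball p τ := by
    rintro x ⟨h1, h2, h3⟩
    constructor
    · rw [mem_ball, dist_eq_norm]
      rw [mem_ball_zero_iff] at h1
      have h4 := norm_sub_le x p
      rw [hpn] at h4
      linarith
    · rw [mem_ball, dist_eq_norm, not_lt]
      exact h3
  have iA0 := i0.mono_set hA0
  have iAp := ip.mono_set hAp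
  have lA0 : ∫ y in A, ‖G y (y - 0)‖ ^ 2 ≤ om / 2 :=
    (setIntegral_mono_set i0 (Eventually.of_forall fun y => by positivity)
      hA0.eventuallyLE).trans l0
  have lAp : ∫ y in A, ‖G y (y - p)‖ ^ 2 ≤ om / 2 :=
    (setIntegral_mono_set ip (Eventually.of_forall fun y => by positivity)
      hAp.eventuallyLE).trans lp
  -- the pointwise inequality
  have hpt : ∀ x ∈ A, nzs (G x) + ‖G x (Pm 1 x)‖ ^ 2 ≤
      8 / D ^ 2 * ‖G x (x - 0)‖ ^ 2 + 6 / D ^ 2 * ‖G x (x - p)‖ ^ 2 := by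
    rintro x ⟨h1, h2, h3⟩
    rw [mem_ball_zero_iff] at h1
    have hx2 : x 2 ^ 2 ≤ 1 := by
      have h4 : ‖x 2‖ ≤ ‖x‖ := PiLp.norm_apply_le x 2
      rw [Real.norm_eq_abs] at h4
      rw [sq_le_one_iff_abs_le_one]
      linarith
    rw [rad_nzs, rad_Pm, sub_zero]
    have e1 : G x (x - x 2 • bv 2) = G x x - x 2 • G x (bv 2) := by
      rw [map_sub, map_smul]
    have e2 : D • G x (bv 2) = G x x - G x (x - p) := by
      rw [map_sub, hp, map_smul]
      abel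
    have hq : ∀ u v : E m, ‖u - v‖ ^ 2 ≤ 2 * ‖u‖ ^ 2 + 2 * ‖v‖ ^ 2 := by
      intro u v
      have h4 := norm_sub_le u v
      have h5 := norm_nonneg (u - v)
      nlinarith [sq_nonneg (‖u‖ - ‖v‖), norm_nonneg u, norm_nonneg v]
    have f1 : D ^ 2 * ‖G x (bv 2)‖ ^ 2 ≤ 2 * ‖G x x‖ ^ 2 + 2 * ‖G x (x - p)‖ ^ 2 := by
      have h4 := hq (G x x) (G x (x - p))
      rw [← e2, norm_smul, mul_pow, Real.norm_eq_abs, sq_abs] at h4
      exact h4
    have f2 : ‖G x (x - x 2 • bv 2)‖ ^ 2 ≤ 2 * ‖G x x‖ ^ 2 + 2 * ‖G x (bv 2)‖ ^ 2 := by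
      rw [e1]
      refine (hq _ _).trans ?_
      rw [norm_smul, mul_pow, Real.norm_eq_abs, sq_abs]
      nlinarith [sq_nonneg ‖G x (bv 2)‖]
    have hD2 : 0 < D ^ 2 := by positivity
    have hD3 : D ^ 2 ≤ 1 := by nlinarith
    have g1 : D ^ 2 * (‖G x (bv 2)‖ ^ 2 + ‖G x (x - x 2 • bv 2)‖ ^ 2) ≤
        8 * ‖G x x‖ ^ 2 + 6 * ‖G x (x - p)‖ ^ 2 := by
      have g2 : D ^ 2 * ‖G x x‖ ^ 2 ≤ ‖G x x‖ ^ 2 := by
        nlinarith [sq_nonneg ‖G x x‖]
      nlinarith [mul_le_mul_of_nonneg_left f2 hD2.le]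
    have g3 : 8 / D ^ 2 * ‖G x x‖ ^ 2 + 6 / D ^ 2 * ‖G x (x - p)‖ ^ 2 =
        (8 * ‖G x x‖ ^ 2 + 6 * ‖G x (x - p)‖ ^ 2) / D ^ 2 := by
      field_simp
    rw [g3, le_div_iff₀ hD2, mul_comm]
    exact g1
  have hfst : ∫ x in A, (nzs (G x) + ‖G x (Pm 1 x)‖ ^ 2) ≤ 100 * om / D ^ 2 := by
    have j1 : Integrable (fun x => 8 / D ^ 2 * ‖G x (x - 0)‖ ^ 2) (volume.restrict A) :=
      Integrable.const_mul iA0 _
    have j2 : Integrable (fun x => 6 / D ^ 2 * ‖G x (x - p)‖ ^ 2) (volume.restrict A) :=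
      Integrable.const_mul iAp _
    have h1 : ∫ x in A, (nzs (G x) + ‖G x (Pm 1 x)‖ ^ 2) ≤
        ∫ x in A, (8 / D ^ 2 * ‖G x (x - 0)‖ ^ 2 + 6 / D ^ 2 * ‖G x (x - p)‖ ^ 2) := by
      refine integral_mono_of_nonneg (Eventually.of_forall fun x => ?_) (j1.add j2)
        ((ae_restrict_mem hmA).mono hpt)
      change 0 ≤ nzs (G x) + ‖G x (Pm 1 x)‖ ^ 2
      rw [rad_nzs]
      positivity
    have h2 : ∫ x in A, (8 / D ^ 2 * ‖G x (x - 0)‖ ^ 2 + 6 / D ^ 2 * ‖G x (x - p)‖ ^ 2) =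
        8 / D ^ 2 * (∫ x in A, ‖G x (x - 0)‖ ^ 2) + 6 / D ^ 2 * ∫ x in A, ‖G x (x - p)‖ ^ 2 := by
      rw [integral_add j1 j2, integral_const_mul, integral_const_mul]
    have h3 : 8 / D ^ 2 * (∫ x in A, ‖G x (x - 0)‖ ^ 2) ≤ 8 / D ^ 2 * (om / 2) :=
      mul_le_mul_of_nonneg_left lA0 (by positivity)
    have h4 : 6 / D ^ 2 * (∫ x in A, ‖G x (x - p)‖ ^ 2) ≤ 6 / D ^ 2 * (om / 2) :=
      mul_le_mul_of_nonneg_left lAp (by positivity)
    have h5 : 8 / D ^ 2 * (om / 2) + 6 / D ^ 2 * (om / 2) ≤ 100 * om / D ^ 2 := by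
      have h6 : 8 / D ^ 2 * (om / 2) + 6 / D ^ 2 * (om / 2) = 7 * om / D ^ 2 := by
        field_simp
        ring
      rw [h6]
      exact div_le_div_of_nonneg_right (by linarith) (by positivity)
    linarith
  refine ⟨hfst, ?_⟩
  -- the second claim
  obtain ⟨-, -, -, hM, -, -⟩ := hMUF m G hGD.memG
  have hnn : ∀ x, 0 ≤ nzs (G x) := fun x => by
    rw [rad_nzs]
    positivity
  have hsm : ∀ c : V, ball c τ ⊆ ball 0 2 →
      IntegrableOn (fun x => nsq (G x)) (ball c τ) ∧ ∫ x in ball c τ, nzs (G x) ≤ Λ * τ := by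
    intro c hc
    obtain ⟨h1, h2⟩ := hM (ball c τ) measurableSet_ball hc
    refine ⟨h1, ?_⟩
    have h3 := hGD.den c τ hτ hc
    rw [h2] at h3
    refine le_trans ?_ h3
    exact integral_mono_of_nonneg (Eventually.of_forall hnn) h1
      (Eventually.of_forall fun x => rad_nzs_le (G x))
  have hs0 : ball (0 : V) τ ⊆ ball 0 2 := ball_subset_ball (by linarith)
  have hsp : ball p τ ⊆ ball 0 2 := (ball_subset_ball (by linarith)).trans hbp
  have hms : AEStronglyMeasurable (fun x => nzs (G x)) (volume.restrict (ball (0 : V) 2)) := by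
    have h1 : AEStronglyMeasurable G (volume.restrict (ball (0 : V) 2)) :=
      hGD.memG.aestronglyMeasurable
    have h2 : Continuous fun L : V →L[ℝ] E m => nzs L := by
      have h3 : (fun L : V →L[ℝ] E m => nzs L) = fun L => ‖L (bv 2)‖ ^ 2 := by
        funext L
        exact rad_nzs L
      rw [h3]
      exact ((ContinuousLinearMap.apply ℝ (E m) (bv 2 : V)).continuous.norm).pow 2
    exact h2.comp_aestronglyMeasurable h1
  have hI2 : IntegrableOn (fun x => nzs (G x)) (ball (0 : V) 2) := by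
    refine Integrable.mono' (hM (ball 0 2) measurableSet_ball le_rfl).1 hms
      (Eventually.of_forall fun x => ?_)
    rw [Real.norm_of_nonneg (hnn x)]
    exact rad_nzs_le (G x)
  have hAsub : A ⊆ ball 0 2 := hA0.trans (sdiff_subset.trans hb0)
  have hcov : ball (0 : V) (7 / 8) ⊆ A ∪ (ball 0 τ ∪ ball p τ) := by
    intro x hx
    by_cases h1 : x ∈ ball (0 : V) τ
    · exact Or.inr (Or.inl h1)
    · by_cases h2 : x ∈ ball p τ
      · exact Or.inr (Or.inr h2)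
      · left
        rw [mem_ball_zero_iff, not_lt] at h1
        rw [mem_ball, dist_eq_norm, not_lt] at h2
        exact ⟨hx, h1, h2⟩
  have hle1 : ∫ x in ball (0 : V) (7 / 8), nzs (G x) ≤
      ∫ x in A ∪ (ball 0 τ ∪ ball p τ), nzs (G x) :=
    setIntegral_mono_set (hI2.mono_set (union_subset hAsub (union_subset hs0 hsp)))
      (Eventually.of_forall hnn) hcov.eventuallyLE
  have hun : ∀ s t : Set V, s ⊆ ball 0 2 → t ⊆ ball 0 2 →
      ∫ x in s ∪ t, nzs (G x) ≤ (∫ x in s, nzs (G x)) + ∫ x in t, nzs (G x) := by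
    intro s t hs ht
    have h1 : Integrable (fun x => nzs (G x)) (volume.restrict s) := hI2.mono_set hs
    have h2 : Integrable (fun x => nzs (G x)) (volume.restrict t) := hI2.mono_set ht
    rw [← integral_add_measure h1 h2]
    exact integral_mono_measure (Measure.restrict_union_le s t) (Eventually.of_forall hnn)
      (h1.add_measure h2)
  have hle2 := hun A (ball 0 τ ∪ ball p τ) hAsub (union_subset hs0 hsp)
  have hle3 := hun (ball 0 τ) (ball p τ) hs0 hsp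
  have hle4 := (hsm 0 hs0).2
  have hle5 := (hsm p hsp).2
  have hle6 : ∫ x in A, nzs (G x) ≤ 100 * om / D ^ 2 := by
    have j1 : Integrable (fun x => 8 / D ^ 2 * ‖G x (x - 0)‖ ^ 2) (volume.restrict A) :=
      Integrable.const_mul iA0 _
    have j2 : Integrable (fun x => 6 / D ^ 2 * ‖G x (x - p)‖ ^ 2) (volume.restrict A) :=
      Integrable.const_mul iAp _
    have h1 : ∫ x in A, nzs (G x) ≤
        ∫ x in A, (8 / D ^ 2 * ‖G x (x - 0)‖ ^ 2 + 6 / D ^ 2 * ‖G x (x - p)‖ ^ 2) := by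
      refine integral_mono_of_nonneg (Eventually.of_forall hnn) (j1.add j2)
        ((ae_restrict_mem hmA).mono fun x hx => ?_)
      have h7 := hpt x hx
      have h8 : 0 ≤ ‖G x (Pm 1 x)‖ ^ 2 := by positivity
      change nzs (G x) ≤ _
      linarith
    have h2 : ∫ x in A, (8 / D ^ 2 * ‖G x (x - 0)‖ ^ 2 + 6 / D ^ 2 * ‖G x (x - p)‖ ^ 2) =
        8 / D ^ 2 * (∫ x in A, ‖G x (x - 0)‖ ^ 2) + 6 / D ^ 2 * ∫ x in A, ‖G x (x - p)‖ ^ 2 := by
      rw [integral_add j1 j2, integral_const_mul, integral_const_mul]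
    have h3 : 8 / D ^ 2 * (∫ x in A, ‖G x (x - 0)‖ ^ 2) ≤ 8 / D ^ 2 * (om / 2) :=
      mul_le_mul_of_nonneg_left lA0 (by positivity)
    have h4 : 6 / D ^ 2 * (∫ x in A, ‖G x (x - p)‖ ^ 2) ≤ 6 / D ^ 2 * (om / 2) :=
      mul_le_mul_of_nonneg_left lAp (by positivity)
    have h5 : 8 / D ^ 2 * (om / 2) + 6 / D ^ 2 * (om / 2) ≤ 100 * om / D ^ 2 := by
      have h6 : 8 / D ^ 2 * (om / 2) + 6 / D ^ 2 * (om / 2) = 7 * om / D ^ 2 := by
        field_simp
        ring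
      rw [h6]
      exact div_le_div_of_nonneg_right (by linarith) (by positivity)
    linarith
  linarith

end Pool.Agent.H8.D3
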